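import Mathlib
import Pool.Agent.Helper26.RadSum

set_option autoImplicit false

/-!
The integers that occur in a failure of Q1 form a very thin set: up to `X` there are at most
`√X · exp (-(1/2) √(log X) + C √(log X / log log X))` of them.
-/

namespace Pool.Agent.Helper81.Retired.SparseEntriesABC

open Finset Real Pool.Agent.Helper26.RadSum

theorem result :
    ∃ C : ℝ, ∃ X₀ : ℕ, ∀ X : ℕ, X₀ ≤ X →
      ({n : ℕ | ∃ a b c : ℕ, 0 < a ∧ 0 < b ∧ a + b = c ∧ Nat.Coprime a b ∧ c ≤ X ∧
          ((∏ p ∈ (a * b * c).primeFactors, p : ℕ) : ℝ) ≤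
            (c : ℝ) ^ ((1 : ℝ) - 1 / Real.sqrt (Real.log (c : ℝ))) ∧
          (n = a ∨ n = b ∨ n = c)}.Finite) ∧
      (({n : ℕ | ∃ a b c : ℕ, 0 < a ∧ 0 < b ∧ a + b = c ∧ Nat.Coprime a b ∧ c ≤ X ∧
          ((∏ p ∈ (a * b * c).primeFactors, p : ℕ) : ℝ) ≤
            (c : ℝ) ^ ((1 : ℝ) - 1 / Real.sqrt (Real.log (c : ℝ))) ∧
          (n = a ∨ n = b ∨ n = c)}.ncard : ℕ) : ℝ) ≤
        Real.sqrt X * Real.exp (-(1 / 2) * Real.sqrt (Real.log X) +
          C * Real.sqrt (Real.log X / Real.log (Real.log X))) := by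
  refine ⟨131, ⌈Real.exp (Real.exp 4)⌉₊, ?_⟩
  intro X hX
  have hX1 : Real.exp (Real.exp 4) ≤ X := Nat.ceil_le.1 hX
  have hXpos : (0 : ℝ) < X := lt_of_lt_of_le (Real.exp_pos _) hX1
  have hL : Real.exp 4 ≤ log X := by
    rw [← Real.log_exp (Real.exp 4)]
    exact Real.log_le_log (Real.exp_pos _) hX1
  set S : Set ℕ := {n : ℕ | ∃ a b c : ℕ, 0 < a ∧ 0 < b ∧ a + b = c ∧ Nat.Coprime a b ∧ c ≤ X ∧
          ((∏ p ∈ (a * b * c).primeFactors, p : ℕ) : ℝ) ≤
            (c : ℝ) ^ ((1 : ℝ) - 1 / Real.sqrt (Real.log (c : ℝ))) ∧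
          (n = a ∨ n = b ∨ n = c)} with hS
  set L := log (X : ℝ) with hLdef
  have hL0 : 0 < L := lt_of_lt_of_le (Real.exp_pos 4) hL
  have hll : 4 ≤ log L := by
    rw [← Real.log_exp 4]
    exact Real.log_le_log (Real.exp_pos 4) hL
  set G := ∑ n ∈ Finset.Icc 1 X, 1 / (rad n : ℝ) with hG
  have hGle : G ≤ Real.exp (65 * √(L / log L)) := sum_inv_rad_le hL
  have hX1' : 1 ≤ X := by
    rcases Nat.eq_zero_or_pos X with h | h
    · subst h; simp at hXpos
    · exact h
  have hG1 : 1 ≤ G := by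
    have h1 : ∑ n ∈ ({1} : Finset ℕ), 1 / (rad n : ℝ) = 1 := by simp [rad]
    have h2 : ∑ n ∈ ({1} : Finset ℕ), 1 / (rad n : ℝ) ≤ G := by
      apply Finset.sum_le_sum_of_subset_of_nonneg
      · intro n hn
        rw [Finset.mem_singleton] at hn
        subst hn
        rw [Finset.mem_Icc]; exact ⟨le_refl _, hX1'⟩
      · intro n _ _; positivity
    linarith
  set Y := (X : ℝ) * Real.exp (-√L) with hY
  have hYpos : 0 < Y := by positivity
  have hYs : √Y * √Y = Y := Real.mul_self_sqrt hYpos.le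
  have hYs0 : 0 < √Y := Real.sqrt_pos.2 hYpos
  classical
  set B1 := (Finset.Icc 1 X).filter (fun n => (rad n : ℝ) ≤ √Y) with hB1
  set P := pairSet X √Y with hP
  have hcover : S ⊆ ((B1 ∪ (P.image (fun t => t.1 + t.2) ∪ P.image (fun t => t.1 - t.2)) :
      Finset ℕ) : Set ℕ) := by
    rintro n ⟨a, b, c, ha, hb, hab, hco, hcX, hr, hn⟩
    have hexc : Exc a b c := ⟨ha, hb, hab, hco, hr⟩
    have hle := hexc.rad_mul_le hcX
    rw [← hLdef, ← hY] at hle
    have hra : (0 : ℝ) < rad a := by exact_mod_cast rad_pos a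
    have hrb : (0 : ℝ) < rad b := by exact_mod_cast rad_pos b
    have hrc : (0 : ℝ) < rad c := by exact_mod_cast rad_pos c
    have hn1 : 1 ≤ n ∧ n ≤ X := by
      rcases hn with rfl | rfl | rfl <;> constructor <;> omega
    rw [Finset.mem_coe, Finset.mem_union, Finset.mem_union]
    by_cases hsmall : (rad n : ℝ) ≤ √Y
    · left
      rw [hB1, Finset.mem_filter, Finset.mem_Icc]
      exact ⟨hn1, hsmall⟩
    · right
      push Not at hsmall
      have key : ∀ u v : ℝ, 0 < u → 0 < v → √Y < v → u * v ≤ Y → u ≤ √Y := by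
        intro u v hu hv h1 h2
        by_contra h3
        push Not at h3
        have : √Y * √Y < u * v := by
          apply mul_lt_mul'' h3 h1 hYs0.le hYs0.le
        linarith
      rcases hn with rfl | rfl | rfl
      · -- n = a = c - b
        right
        rw [Finset.mem_image]
        refine ⟨(c, b), ?_, by simp; omega⟩
        rw [hP, pairSet, Finset.mem_filter, Finset.mem_product, Finset.mem_Icc, Finset.mem_Icc]
        refine ⟨⟨⟨by simp; omega, by simpa using hcX⟩, ⟨by simp; omega, by simp; omega⟩⟩, ?_⟩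
        apply key _ (rad n) (by positivity) hra hsmall
        simp only
        nlinarith
      · right
        rw [Finset.mem_image]
        refine ⟨(c, a), ?_, by simp; omega⟩
        rw [hP, pairSet, Finset.mem_filter, Finset.mem_product, Finset.mem_Icc, Finset.mem_Icc]
        refine ⟨⟨⟨by simp; omega, by simpa using hcX⟩, ⟨by simp; omega, by simp; omega⟩⟩, ?_⟩
        apply key _ (rad n) (by positivity) hrb hsmall
        simp only
        nlinarith
      · left
        rw [Finset.mem_image]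
        refine ⟨(a, b), ?_, by simpa using hab⟩
        rw [hP, pairSet, Finset.mem_filter, Finset.mem_product, Finset.mem_Icc, Finset.mem_Icc]
        refine ⟨⟨⟨by simp; omega, by simp; omega⟩, ⟨by simp; omega, by simp; omega⟩⟩, ?_⟩
        apply key _ (rad n) (by positivity) hrc hsmall
        simp only
        nlinarith
  refine ⟨Set.Finite.subset (Finset.finite_toSet _) hcover, ?_⟩
  have h1 : (S.ncard : ℝ) ≤ (B1.card : ℝ) + ((P.card : ℝ) + P.card) := by
    have h2 := Set.ncard_le_ncard hcover (Finset.finite_toSet _)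
    rw [Set.ncard_coe_finset] at h2
    have h3 := Finset.card_union_le B1
      (P.image (fun t => t.1 + t.2) ∪ P.image (fun t => t.1 - t.2))
    have h4 := Finset.card_union_le (P.image (fun t => t.1 + t.2))
      (P.image (fun t => t.1 - t.2))
    have h5 := Finset.card_image_le (s := P) (f := fun t => t.1 + t.2)
    have h6 := Finset.card_image_le (s := P) (f := fun t => t.1 - t.2)
    have h7 : S.ncard ≤ B1.card + (P.card + P.card) := by omega
    exact_mod_cast h7
  have h2 : (B1.card : ℝ) ≤ √Y * G := card_rad_le X hYs0.le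
  have h3 : (P.card : ℝ) ≤ √Y * G ^ 2 := card_pair_rad_le X hYs0.le
  have h4 : (S.ncard : ℝ) ≤ 3 * (√Y * G ^ 2) := by
    have : √Y * G ≤ √Y * G ^ 2 := by
      apply mul_le_mul_of_nonneg_left _ hYs0.le
      nlinarith
    linarith
  have h5 : √Y = √X * Real.exp (-(1 / 2) * √L) := by
    rw [hY, Real.sqrt_mul hXpos.le]
    congr 1
    rw [Real.sqrt_eq_iff_mul_self_eq (Real.exp_pos _).le (Real.exp_pos _).le, ← Real.exp_add]
    ring_nf
  have h6 : G ^ 2 ≤ Real.exp (130 * √(L / log L)) := by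
    have : Real.exp (130 * √(L / log L)) = Real.exp (65 * √(L / log L)) ^ 2 := by
      rw [← Real.exp_nat_mul]; ring_nf
    rw [this]
    gcongr
  have h7 : (3 : ℝ) ≤ Real.exp √(L / log L) := three_le_exp hll rfl hL0
  calc (S.ncard : ℝ) ≤ 3 * (√Y * G ^ 2) := h4
    _ ≤ Real.exp √(L / log L) * (√X * Real.exp (-(1 / 2) * √L) *
        Real.exp (130 * √(L / log L))) := by
        rw [h5]
        gcongr
    _ = √X * Real.exp (-(1 / 2) * √L + 131 * √(L / log L)) := by
        rw [show -(1 / 2) * √L + 131 * √(L / log L) =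
          √(L / log L) + -(1 / 2) * √L + 130 * √(L / log L) by ring, Real.exp_add, Real.exp_add]
        ring

end Pool.Agent.Helper81.Retired.SparseEntriesABC
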